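import Pool.Agent.helper1.TW.SpecW
import Pool.Agent.helper38.ZT.SpecG

/-!
# Project TW, row EXF
-/

set_option autoImplicit false

open Complex MeasureTheory Set
open scoped ComplexConjugate

namespace Pool.Agent.TW

open Pool.Agent.ZT (VV gC Bn MC cmf cmA cmI lamA muA hm Sqf)

theorem EXF_gC_zero (hGDC : Pool.Agent.ZT.GDC_stmt) {n : ℕ} (hn : 1 ≤ n) (μ : Fin n → ℝ) (hμ : ∀ j, 0 ≤ μ j) (x : ℝ) :
    gC μ 0 (0 : VV) x = 0 := by
  have h := (hGDC n 0 μ ⟨hn, hμ⟩).2.2.2 0 (0 : VV) x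
  rw [zero_smul] at h
  rw [h]; simp

theorem EXF (hNWA : NWA_stmt) (hETA : ETA_stmt) (hCTA : CTA_stmt) (hCVT : CVT_stmt)
    (hGDC : Pool.Agent.ZT.GDC_stmt) : EXF_stmt := by
  intro k n N₀ c CG om μs hk hn
  have hn7 : 7 ≤ n := by omega
  have hn1 : 1 ≤ n := by omega
  have hctr : Ctr (aC n) (bC n) := (hCTA n hn7).1
  obtain ⟨c₁, q₀, hc₁, hq₀, H⟩ := hNWA k n N₀ c CG om μs (aC n) (bC n) hctr hk hn 16 (by norm_num)
  refine ⟨c₁, q₀, hc₁, hq₀, ?_⟩
  intro ι r X ω μ hF hω hμs hμ q hq A hA hA1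
  set D : Dat n ι := ⟨r, X, ω, μ, aC n, bC n⟩ with hD
  have hOk : D.Ok k N₀ c CG om μs := ⟨hn, hF, hctr, hω, hμs, hμ⟩
  obtain ⟨β, hβ, HB⟩ := H (etn n) (hETA n hn7) ι D rfl rfl hOk q hq A hA hA1
  refine ⟨β, hβ, ?_⟩
  intro i w
  have hq0 : 0 < q := by linarith
  have hr0 : (0 : ℝ) < r i := by exact_mod_cast hF.r1 i
  have hrn : (0 : ℝ) < (r i : ℝ) ^ n := by positivity
  have hQ : 0 < q * (r i : ℝ) ^ n := by positivity
  have hsQ : 0 < √(q * (r i : ℝ) ^ n) := Real.sqrt_pos.mpr hQ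
  have hsplit : √(q * (r i : ℝ) ^ n) = √q * D.rho i := by
    rw [Real.sqrt_mul hq0.le]
    rfl
  set x : ℝ := 1 / √(q * (r i : ℝ) ^ n) with hx
  have hx0 : 0 < x := by positivity
  set g : ℝ → ℂ := gC (μ i) 0 w with hg
  have hdec : ∀ σ : ℝ, 1 ≤ σ → ∃ C : ℝ, ∀ y : ℝ, 0 < y → ‖g y‖ ≤ C * y ^ (-σ) := by
    intro σ hσ
    exact (hGDC n 0 (μ i) ⟨hn1, hμ i⟩).2.1 w σ (by linarith)
  obtain ⟨-, hC⟩ := hCVT n β (X i) hn7 (hF.one i) (hF.mul i) (hF.bd i)
  obtain ⟨-, -, hEq⟩ := hC g x hx0 hdec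
  obtain ⟨-, hRe⟩ := HB (Finsupp.single i w)
  have hT : ∀ e : ℕ, D.T q (Finsupp.single i w) e =
      ω i * (if e = 0 then 0 else X i e * ∑' d : ℕ, aC n d * X i d * g (d * (e * x))) := by
    intro e
    unfold Dat.T
    by_cases he : e = 0
    · simp [he]
    rw [if_neg he, if_neg he, Finsupp.sum_single_index]
    · unfold Dat.f
      have harg : ∀ d : ℕ, (d : ℝ) * ((e : ℝ) / √q / D.rho i) = d * (e * x) := by
        intro d
        rw [hx, hsplit]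
        rw [div_div]
        ring
      have : ∑' d : ℕ, D.a d * D.X i d * gC (D.μ i) 0 w (d * ((e : ℝ) / √q / D.rho i)) =
          ∑' d : ℕ, aC n d * X i d * g (d * (e * x)) := by
        refine tsum_congr fun d => ?_
        rw [harg d]
      rw [this]
      show X i e * (ω i * _) = _
      ring
    · have : D.f 0 i 0 ((e : ℝ) / √q) = 0 := by
        unfold Dat.f
        have h0 : ∀ d : ℕ, D.a d * D.X i d * gC (D.μ i) 0 (0 : VV) (d * ((e : ℝ) / √q / D.rho i)) = 0 := by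
          intro d
          rw [EXF_gC_zero hGDC hn1 (D.μ i) (hμ i), mul_zero]
        rw [tsum_congr h0, tsum_zero, mul_zero]
      rw [this, mul_zero]
  have hL : ∑' m : ℕ, ω i * lamA (fun p => sat n (β p)) (X i) m * gC (μ i) 0 w (m / √(q * (r i : ℝ) ^ n)) =
      ∑' e : ℕ, etn n β e * D.T q (Finsupp.single i w) e := by
    have h1 : ∀ m : ℕ, ω i * lamA (fun p => sat n (β p)) (X i) m * gC (μ i) 0 w (m / √(q * (r i : ℝ) ^ n)) =
        ω i * (lamA (fun p => sat n (β p)) (X i) m * g (m * x)) := by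
      intro m
      rw [hx, mul_one_div, mul_assoc]
    rw [tsum_congr h1, tsum_mul_left, hEq, ← tsum_mul_left]
    refine tsum_congr fun e => ?_
    rw [hT e]
    ring
  rw [hL, hRe, Finsupp.sum_single_index]
  · show w.2.2 * (c₁ * √q * D.rho i * A i / (Real.log q ^ 3 * (1 + Real.log (r i)) ^ (n + 2))) = _
    rw [hsplit]
    ring
  · simp

end Pool.Agent.TW
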