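import Pool.Agent.helper1.TW.SpecW
import Pool.Agent.helper5.ZT.FTW

/-!
# Project TW: from the coefficients to the L-functions
-/

set_option autoImplicit false

open Complex MeasureTheory Set
open scoped ComplexConjugate
open Pool.Agent.CF (LDatum Std Subconvex)

namespace Pool.Agent.TW

open Pool.Agent.ZT (VV gC Bn MC cmf cmA cmI lamA muA hm Sqf)
open Pool.Agent.BA (Par kf)

/-- The data `T i` look like the twists `π ⊗ χ_i` of one `π` of degree `n` and conductor `q` with Satake parameters `α p j`, `|α p j| = 1`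
for ALL primes `p`, by the characters `χ_i` of conductor `r i` (`X i` = the values of `χ_i`): each `T i` is in the class `Std 0 K`,
its conductor is `q (r i)^n`, its archimedean parameters are `μ i`, its root number is `w i`. -/
structure Tws {n : ℕ} (K : ℝ) {ι : Type} (r : ι → ℕ) (X : ι → ℕ → ℂ) (μ : ι → Fin n → ℝ) (w : ι → ℂ) (q : ℕ)
    (α : ℕ → Fin n → ℂ) (T : ι → LDatum n) : Prop where
  unit : ∀ p : ℕ, p.Prime → ∀ j, ‖α p j‖ = 1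
  std : ∀ i, Std 0 K (T i)
  cond : ∀ i, (T i).q = q * (r i : ℝ) ^ n
  par : ∀ i j, (T i).μ j = (μ i j : ℂ)
  sat : ∀ i (p m : ℕ), p.Prime → 1 ≤ m → (T i).a (p ^ m) = ∑ j, (X i p * α p j) ^ m
  fe : ∀ i (s : ℂ), (((q : ℝ) * (r i : ℝ) ^ n : ℝ) : ℂ) ^ (s / 2) * (T i).L s * ∏ j, (Gammaℝ (1 - s + (μ i j : ℂ)))⁻¹ =
    w i * ((((q : ℝ) * (r i : ℝ) ^ n : ℝ) : ℂ) ^ ((1 - s) / 2) * conj ((T i).L (1 - conj s)) *
      ∏ j, (Gammaℝ (s + (μ i j : ℂ)))⁻¹)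

theorem FIN_gen (hEXF : EXF_stmt) (hSAT : SAT_stmt) (hZCI : Pool.Agent.ZT.ZCI_stmt) (hDNB : Pool.Agent.ZT.DNB_stmt)
    (bKER : Pool.Agent.BA.KER_stmt) (n : ℕ) (hn1 : 1 ≤ n) : ∃ K : ℝ, 0 < K ∧
    ∀ (k N₀ : ℕ) (c CG : ℝ) (om : ℕ → ℕ → ℝ) (μs : Finset (Fin n → ℝ)), 3 ≤ k → 100000 * k ≤ n →
    ∃ c₁ q₀ : ℝ, 0 < c₁ ∧ ∀ (ι : Type) (r : ι → ℕ) (X : ι → ℕ → ℂ) (μ : ι → Fin n → ℝ) (w : ι → ℂ), Fam k N₀ c CG om r X →
    (∀ i, μ i ∈ μs) → (∀ i j, 0 ≤ μ i j) → (∀ i, ‖w i‖ = 1) → ∀ q : ℕ, q₀ ≤ q → ∀ A : ι → ℝ, (∀ i, 0 ≤ A i) →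
    (∀ s : Finset ι, ∑ i ∈ s, A i ≤ 1) → ∃ (α : ℕ → Fin n → ℂ) (T : ι → LDatum n), Tws K r X μ w q α T ∧
    ∀ i, ‖(T i).L (1 / 2)‖ = c₁ * (∏ j, ‖Gammaℝ (1 / 2 + (μ i j : ℂ))‖)⁻¹ * A i * ((q : ℝ) * (r i : ℝ) ^ n) ^ (1 / 4 : ℝ) /
      (Real.log q ^ 3 * (1 + Real.log (r i)) ^ (n + 2)) := by
  obtain ⟨K, hK, hZ⟩ := hZCI n hn1
  refine ⟨K, hK, ?_⟩
  intro k N₀ c CG om μs hk hn
  obtain ⟨c₁, q₀, hc₁, hq₀, hE⟩ := hEXF k n N₀ c CG om μs hk hn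
  refine ⟨2 * c₁, q₀, by positivity, ?_⟩
  intro ι r X μ w hF hμs hμ hw q hq A hA hA1
  choose ω hω1 hω2 using fun i => Pool.Agent.ZT.FTW_sqrt (w i) (hw i)
  obtain ⟨β, hβ, hid⟩ := hE ι r X ω μ hF hω1 hμs hμ q hq A hA hA1
  have hn7 : 7 ≤ n := by omega
  have hα1 : ∀ p : ℕ, ∀ j, ‖sat n (β p) j‖ = 1 := fun p j => (hSAT n hn7).1 (β p) j
  have hα : ∀ p : ℕ, p.Prime → ∀ j, ‖sat n (β p) j‖ ≤ 1 := fun p _ j => (hα1 p j).le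
  have hX : ∀ i, ∀ p : ℕ, p.Prime → ‖X i p‖ ≤ 1 := fun i p _ => hF.bd i p
  have hq3 : (3 : ℝ) ≤ q := hq₀.trans hq
  have hq0 : (0 : ℝ) < q := by linarith
  have hr1 : ∀ i, (1 : ℝ) ≤ (r i : ℝ) ^ n := fun i => one_le_pow₀ (by exact_mod_cast hF.r1 i)
  have hQ : ∀ i, 1 ≤ (q : ℝ) * (r i : ℝ) ^ n := by
    intro i
    have := hr1 i
    nlinarith
  have hCof : ∀ i, Pool.Agent.ZT.Cof (fun m => ω i * lamA (fun p => sat n (β p)) (X i) m) := by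
    intro i
    constructor
    · simp
    · intro δ hδ
      obtain ⟨C, -, hC⟩ := (hDNB n).1 δ hδ
      refine ⟨C, fun m => ?_⟩
      rw [norm_mul, hω1, one_mul]
      exact (hC (fun p => sat n (β p)) (X i) hα (hX i) m).1
  have hD := fun i => hZ (μ i) (fun p => sat n (β p)) (X i) (ω i)
    ((q : ℝ) * (r i : ℝ) ^ n) (c₁ * √((q : ℝ) * (r i : ℝ) ^ n) * A i / (Real.log q ^ 3 * (1 + Real.log (r i)) ^ (n + 2)))
    ⟨hn1, hμ i⟩ (bKER n (μ i) ⟨hn1, hμ i⟩) hα (hX i) (hω1 i) (hQ i) (hCof i) (hid i)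
  choose T hStd hDq hDμ hDa hDL hDfe hDc using hD
  refine ⟨fun p => sat n (β p), T, ⟨fun p _ j => hα1 p j, hStd, hDq, hDμ, ?_, ?_⟩, ?_⟩
  · intro i p m hp _
    rw [hDa, Pool.Agent.ZT.FTW_cmf_pow _ p m hp, Finset.mul_sum]
    apply Finset.sum_congr rfl
    intro j _
    rw [Pool.Agent.ZT.FTW_cmf_pow _ p m hp, ← mul_pow]
  · intro i s
    rw [hDfe i s, hω2 i]
  · intro i
    have h1 := congrArg norm (hDc i)
    rw [norm_mul, hω1, one_mul, norm_mul, Complex.norm_real] at h1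
    rw [h1]
    set Q : ℝ := (q : ℝ) * (r i : ℝ) ^ n with hQd
    have hQ0 : 0 < Q := lt_of_lt_of_le one_pos (hQ i)
    have hlog : 0 < Real.log q := Real.log_pos (by linarith)
    have hlr : 0 ≤ Real.log (r i) := Real.log_natCast_nonneg _
    have hAi := hA i
    have h4 : (0 : ℝ) ≤ 2 * Q ^ (-(1 / 4) : ℝ) * (c₁ * √Q * A i / (Real.log q ^ 3 * (1 + Real.log (r i)) ^ (n + 2))) := by
      positivity
    rw [Real.norm_of_nonneg h4, norm_prod]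
    have h5 : Q ^ (-(1 / 4) : ℝ) * √Q = Q ^ (1 / 4 : ℝ) := by
      rw [Real.sqrt_eq_rpow, ← Real.rpow_add hQ0]
      norm_num
    have h6 : ∏ j, ‖(Gammaℝ (1 / 2 + (μ i j : ℂ)))⁻¹‖ = (∏ j, ‖Gammaℝ (1 / 2 + (μ i j : ℂ))‖)⁻¹ := by
      rw [← Finset.prod_inv_distrib]
      exact Finset.prod_congr rfl fun j _ => norm_inv _
    rw [h6, ← h5]
    ring

end Pool.Agent.TW
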