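import Pool.Agent.helper70.TW.SpecE
import Pool.Agent.helper62.ZT.CMF

/-!
# Project TW, row LPS
-/

set_option autoImplicit false

open Complex

namespace Pool.Agent.TW

open Pool.Agent.ZT (cmf cmA cmI lamA muA hm Sqf)

theorem LPS_mul_apply (f g : ArithmeticFunction ℂ) (p k : ℕ) (hp : p.Prime) :
    (f * g) (p ^ k) = ∑ x ∈ Finset.HasAntidiagonal.antidiagonal k, f (p ^ x.1) * g (p ^ x.2) := by
  rw [ArithmeticFunction.mul_apply, Nat.sum_divisorsAntidiagonal (f := fun x y => f x * g y),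
    Nat.sum_divisors_prime_pow hp, Finset.Nat.sum_antidiagonal_eq_sum_range_succ_mk]
  refine Finset.sum_congr rfl fun i hi => ?_
  rw [Finset.mem_range] at hi
  rw [Nat.pow_div (by omega) hp.pos]

theorem LPS_lps_mul (p : ℕ) (hp : p.Prime) (f g : ArithmeticFunction ℂ) : lps p (f * g) = lps p f * lps p g := by
  ext k
  rw [PowerSeries.coeff_mul]
  unfold lps
  rw [PowerSeries.coeff_mk, LPS_mul_apply f g p k hp]
  refine Finset.sum_congr rfl fun x _ => ?_
  rw [PowerSeries.coeff_mk, PowerSeries.coeff_mk]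

theorem LPS_lps_one (p : ℕ) (hp : p.Prime) : lps p 1 = 1 := by
  ext k
  unfold lps
  rw [PowerSeries.coeff_mk, PowerSeries.coeff_one, ArithmeticFunction.one_apply]
  by_cases hk : k = 0
  · simp [hk]
  · rw [if_neg hk, if_neg]
    intro h
    have := (Nat.pow_eq_one.mp h)
    rcases this with h | h
    · exact hp.one_lt.ne' h
    · exact hk h

theorem LPS_lps_prod (p : ℕ) (hp : p.Prime) (m : ℕ) (f : Fin m → ArithmeticFunction ℂ) :
    lps p (∏ j, f j) = ∏ j, lps p (f j) := by
  induction m with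
  | zero => simp [LPS_lps_one p hp]
  | succ m ih => rw [Fin.prod_univ_succ, Fin.prod_univ_succ, LPS_lps_mul p hp, ih]

theorem LPS_lps_cmI (p : ℕ) (hp : p.Prime) (b : ℕ → ℂ) :
    lps p (cmI b) = 1 - PowerSeries.C (b p) * PowerSeries.X := by
  ext k
  unfold lps
  rw [PowerSeries.coeff_mk, map_sub, PowerSeries.coeff_one, PowerSeries.coeff_C_mul, PowerSeries.coeff_X]
  have hv : cmI b (p ^ k) = (ArithmeticFunction.moebius (p ^ k) : ℂ) * cmf b (p ^ k) := rfl
  rw [hv, (Pool.Agent.ZT.CMF b b).2.2.2.2.1 p k hp]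
  rcases k with _ | k
  · simp
  rcases k with _ | k
  · simp [ArithmeticFunction.moebius_apply_prime hp]
  · rw [ArithmeticFunction.moebius_apply_prime_pow hp (by omega)]
    simp

theorem LPS : LPS_stmt := by
  refine ⟨fun p hp => ⟨LPS_lps_mul p hp, LPS_lps_one p hp, LPS_lps_prod p hp, LPS_lps_cmI p hp, ?_⟩, ?_⟩
  · intro b
    rw [← LPS_lps_cmI p hp b, ← LPS_lps_mul p hp, (Pool.Agent.ZT.CMF b b).2.2.2.2.2.2.2.2.2.2.2, LPS_lps_one p hp]
  · intro f g hf hg h
    rw [ArithmeticFunction.IsMultiplicative.eq_iff_eq_on_prime_powers f hf g hg]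
    intro p k hp
    have := congrArg (PowerSeries.coeff k) (h p hp)
    unfold lps at this
    rwa [PowerSeries.coeff_mk, PowerSeries.coeff_mk] at this

end Pool.Agent.TW
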