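import Pool.Agent.helper38.ZT.All
import Pool.Agent.helper14.TW.KAll
import Pool.Agent.helper14.TW.HAll
import Pool.Agent.helper1.TW.EXF
import Pool.Agent.helper1.TW.FIN
import Pool.Agent.helper1.TW.LPS
import Pool.Agent.helper48.TW.FMM
import Pool.Agent.helper65.TW.EXK
import Pool.Agent.helper72.TW.FAC
import Pool.Agent.helper70.TW.CTS
import Pool.Agent.helper52.TW.SPR
import Pool.Agent.helper72.TW.SAT
import Pool.Agent.helper48.TW.PWR
import Pool.Agent.helper72.TW.EXB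
import Pool.Agent.helper65.TW.XIA
import Pool.Agent.helper65.TW.XIL
import Pool.Agent.helper11.TW.XIB
import Pool.Agent.helper72.TW.CTF
import Pool.Agent.helper72.TW.CTA
import Pool.Agent.helper92.TW.ETP
import Pool.Agent.helper64.TW.ETA
import Pool.Agent.helper24.TW.GCV
import Pool.Agent.helper23.TW.CVT
import Pool.Agent.helper43.TW.FMC
import Pool.Agent.helper11.TW.BNF
import Pool.Agent.helper23.TW.GTF
import Pool.Agent.helper65.TW.SUP
import Pool.Agent.helper68.TW.TVF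
import Pool.Agent.helper39.TW.PG1
import Pool.Agent.helper52.TW.IVF
import Pool.Agent.helper34.TW.NRM
import Pool.Agent.helper9.TW.PTW
import Pool.Agent.helper3.TW.TAI
import Pool.Agent.helper2.TW.WIN
import Pool.Agent.helper65.TW.LW1
import Pool.Agent.helper54.TW.LOW
import Pool.Agent.helper15.TW.HBL
import Pool.Agent.helper11.TW.BEF
import Pool.Agent.helper70.TW.DUA
import Pool.Agent.helper78.TW.WBK
import Pool.Agent.helper92.TW.CMB
import Pool.Agent.helper2.TW.LSI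
import Pool.Agent.helper97.TW.ALC
import Pool.Agent.helper9.TW.TPB
import Pool.Agent.helper88.TW.BLA
import Pool.Agent.helper54.TW.BIL
import Pool.Agent.helper55.TW.BID
import Pool.Agent.helper39.TW.RGA
import Pool.Agent.helper22.TW.RGB
import Pool.Agent.helper52.TW.RGC
import Pool.Agent.helper34.TW.TUP
import Pool.Agent.helper27.TW.SQH
import Pool.Agent.helper88.TW.TEL
import Pool.Agent.helper61.TW.XPD
import Pool.Agent.helper58.TW.MLF
import Pool.Agent.helper20.TW.NLE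
import Pool.Agent.helper3.TW.T1B
import Pool.Agent.helper78.TW.PSI
import Pool.Agent.helper84.TW.BEL
import Pool.Agent.helper34.TW.ET0
import Pool.Agent.helper6.TW.NWI
import Pool.Agent.helper55.TW.NWA

/-!
# Project TW: all rows of blocks A, B, E as closed theorems
-/

set_option autoImplicit false

namespace Pool.Agent.TW

theorem tw_LPS : LPS_stmt := LPS
theorem tw_FMM : FMM_stmt := FMM
theorem tw_EXK : EXK_stmt := EXK
theorem tw_FAC : FAC_stmt := FAC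
theorem tw_CTS : CTS_stmt := CTS
theorem tw_SPR : SPR_stmt := SPR
theorem tw_SAT : SAT_stmt := SAT
theorem tw_PWR : PWR_stmt := PWR tw_FMM
theorem tw_EXB : EXB_stmt := EXB tw_EXK tw_FMM tw_LPS
theorem tw_XIA : XIA_stmt := XIA tw_EXB
theorem tw_XIL : XIL_stmt := XIL tw_EXB
theorem tw_XIB : XIB_stmt := XIB tw_XIA tw_XIL
theorem tw_CTF : CTF_stmt := CTF tw_SPR tw_LPS tw_PWR
theorem tw_CTA : CTA_stmt := CTA tw_CTF tw_CTS tw_PWR
theorem tw_ETP : ETP_stmt := ETP tw_SPR tw_LPS tw_FAC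
theorem tw_ETA : ETA_stmt := ETA tw_ETP tw_FAC
theorem tw_GCV : GCV_stmt := GCV
theorem tw_CVT : CVT_stmt := CVT tw_GCV tw_SAT tw_CTA
theorem tw_FMC : FMC_stmt := FMC
theorem tw_BNF : BNF_stmt := BNF
theorem tw_GTF : GTF_stmt := GTF Pool.Agent.ZT.zt_GDC
theorem tw_SUP : SUP_stmt := SUP tw_GTF tw_BNF
theorem tw_TVF : TVF_stmt := TVF tw_GTF
theorem tw_PG1 : PG1_stmt := PG1 tw_K1 tw_K2 tw_GTF
theorem tw_IVF : IVF_stmt := IVF tw_GTF Pool.Agent.ZT.zt_GDC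
theorem tw_NRM : NRM_stmt := NRM tw_K1 tw_GTF tw_IVF tw_BNF
theorem tw_PTW : PTW_stmt := PTW tw_PG1 tw_NRM tw_SUP tw_GTF
theorem tw_TAI : TAI_stmt := TAI tw_PTW tw_FMC
theorem tw_WIN : WIN_stmt := WIN tw_PTW tw_TAI tw_FMC tw_TVF tw_GTF tw_SUP
theorem tw_LW1 : LW1_stmt := LW1 tw_WIN tw_TAI tw_SUP tw_FMC
theorem tw_LOW : LOW_stmt := LOW tw_LW1 tw_PTW tw_BNF tw_SUP tw_TVF
theorem tw_HBL : HBL_stmt := HBL
theorem tw_BEF : BEF_stmt := BEF tw_BNF
theorem tw_DUA : DUA_stmt := DUA tw_LOW tw_HBL tw_BEF tw_TVF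
theorem tw_WBK : WBK_stmt := WBK
theorem tw_CMB : CMB_stmt := CMB
theorem tw_LSI : LSI_stmt := LSI
theorem tw_ALC : ALC_stmt := ALC
theorem tw_TPB : TPB_stmt := TPB tw_PTW tw_TAI tw_FMC tw_TVF
theorem tw_BLA : BLA_stmt := BLA tw_WIN tw_BEF tw_BNF tw_SUP tw_FMC
theorem tw_BIL : BIL_stmt := BIL tw_LSI tw_TAI tw_PTW tw_FMC tw_TVF tw_GTF tw_SUP
theorem tw_BID : BID_stmt := BID tw_ALC tw_BIL tw_WBK tw_BEF tw_BNF tw_SUP
theorem tw_RGA : RGA_stmt := RGA tw_TPB tw_WBK tw_BEF tw_BNF tw_SUP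
theorem tw_RGB : RGB_stmt := RGB tw_BLA tw_WBK tw_BEF tw_BNF tw_SUP
theorem tw_RGC : RGC_stmt := RGC tw_BID tw_CMB tw_WBK tw_BEF tw_BNF tw_SUP
theorem tw_TUP : TUP_stmt := TUP
theorem tw_SQH : SQH_stmt := SQH
theorem tw_TEL : TEL_stmt := TEL
theorem tw_XPD : XPD_stmt := XPD tw_XIA tw_XIB tw_EXK
theorem tw_MLF : MLF_stmt := MLF tw_RGA tw_RGB tw_RGC tw_TUP tw_WBK tw_BEF tw_TVF tw_SUP
theorem tw_NLE : NLE_stmt := NLE tw_MLF tw_XPD tw_TEL tw_SQH tw_XIA tw_XIB tw_BEF tw_TVF tw_SUP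
theorem tw_T1B : T1B_stmt := T1B tw_PG1 tw_PTW tw_FMC tw_SUP tw_TVF
theorem tw_PSI : PSI_stmt := PSI tw_K1 tw_PTW tw_SUP
theorem tw_BEL : BEL_stmt := BEL
theorem tw_ET0 : ET0_stmt := ET0
theorem tw_NWI : NWI_stmt := NWI tw_DUA tw_NLE tw_T1B tw_BEL tw_ET0 tw_BEF tw_TVF tw_SUP
theorem tw_NWA : NWA_stmt := NWA tw_NWI tw_PSI
theorem tw_EXF : EXF_stmt := EXF tw_NWA tw_ETA tw_CTA tw_CVT Pool.Agent.ZT.zt_GDC

end Pool.Agent.TW
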