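import Pool.Agent.helper1.TW.All
import Pool.Agent.helper38.ZT.Final

/-!
# Project TW: the final theorems
-/

set_option autoImplicit false

open Complex MeasureTheory Set
open scoped ComplexConjugate
open Pool.Agent.CF (LDatum Std Subconvex)

namespace Pool.Agent.TW

theorem Fin_Gpos {n : ℕ} (μ : Fin n → ℝ) (hμ : ∀ j, 0 ≤ μ j) : 0 < ∏ j, ‖Gammaℝ (1 / 2 + (μ j : ℂ))‖ := by
  refine Finset.prod_pos fun j _ => norm_pos_iff.mpr ?_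
  apply Gammaℝ_ne_zero_of_re_pos
  have h1 : (1 / 2 + (μ j : ℂ)).re = 1 / 2 + μ j := by simp
  rw [h1]
  have := hμ j
  linarith

open Classical in
/-- A family which contains members with large central values is not subconvex. -/
theorem Fin_notSub {n : ℕ} (K : ℝ) {ι : Type} (r : ι → ℕ) (X : ι → ℕ → ℂ) (μ : ι → Fin n → ℝ) (w : ι → ℂ) (c₁ q₀ : ℝ)
    (hc₁ : 0 < c₁) (hr : ∀ i, 1 ≤ r i) (hμ : ∀ i j, 0 ≤ μ i j)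
    (H : ∀ q : ℕ, q₀ ≤ q → ∀ A : ι → ℝ, (∀ i, 0 ≤ A i) → (∀ s : Finset ι, ∑ i ∈ s, A i ≤ 1) →
      ∃ (α : ℕ → Fin n → ℂ) (T : ι → LDatum n), Tws K r X μ w q α T ∧
      ∀ i, ‖(T i).L (1 / 2)‖ = c₁ * (∏ j, ‖Gammaℝ (1 / 2 + (μ i j : ℂ))‖)⁻¹ * A i * ((q : ℝ) * (r i : ℝ) ^ n) ^ (1 / 4 : ℝ) /
        (Real.log q ^ 3 * (1 + Real.log (r i)) ^ (n + 2))) (i : ι) :
    ¬ Subconvex {D : LDatum n | ∃ (q : ℕ) (α : ℕ → Fin n → ℂ) (T : ι → LDatum n), Tws K r X μ w q α T ∧ D = T i} := by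
  rintro ⟨δ, hδ, hS⟩
  obtain ⟨C, hC⟩ := hS (δ / 2) (half_pos hδ)
  have hri : (1 : ℝ) ≤ (r i : ℝ) := by exact_mod_cast hr i
  have hrn : (0 : ℝ) < (r i : ℝ) ^ n := by positivity
  have hlr : 0 ≤ Real.log (r i) := Real.log_nonneg hri
  set A : ℝ := (r i : ℝ) ^ n * ∏ j, (1 + ‖(1 / 2 : ℂ) + (μ i j : ℂ)‖) with hA
  have hA0 : 0 < A := mul_pos hrn (Finset.prod_pos fun j _ => by positivity)
  set G : ℝ := ∏ j, ‖Gammaℝ (1 / 2 + (μ i j : ℂ))‖ with hG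
  have hG0 : 0 < G := Fin_Gpos (μ i) (hμ i)
  set c : ℝ := c₁ * G⁻¹ * ((r i : ℝ) ^ n) ^ (1 / 4 : ℝ) / (1 + Real.log (r i)) ^ (n + 2) with hc
  have hc0 : 0 < c := by positivity
  obtain ⟨q₁, hq1⟩ := Pool.Agent.ZT.Fin_large c (δ / 2) A C 3 hc0 (half_pos hδ) hA0
  set q : ℕ := max q₁ (max ⌈q₀⌉₊ 3) with hq
  have hqq0 : q₀ ≤ q := by
    have h1 : ⌈q₀⌉₊ ≤ q := (le_max_left _ _).trans (le_max_right _ _)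
    exact (Nat.le_ceil q₀).trans (by exact_mod_cast h1)
  have hq3 : 3 ≤ q := (le_max_right _ _).trans (le_max_right _ _)
  have hq0 : (0 : ℝ) < q := by
    have : 0 < q := by omega
    exact_mod_cast this
  obtain ⟨α, T, hT, hv⟩ := H q hqq0 (fun j => if j = i then 1 else 0) (fun j => by split_ifs <;> norm_num) (by
    intro s
    rw [Finset.sum_ite_eq' s i]
    split_ifs <;> norm_num)
  have h5 := hC (T i) ⟨q, α, T, hT, rfl⟩ 0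
  have hQ : (T i).Q 0 = (q : ℝ) * A := by
    rw [Pool.Agent.ZT.Fin_Q (T i) ((q : ℝ) * (r i : ℝ) ^ n) (μ i) (hT.cond i) (hT.par i), hA]
    ring
  have e1 : (1 / 2 : ℂ) + ((0 : ℝ) : ℂ) * I = 1 / 2 := by simp
  have e2 : (1 / 4 : ℝ) - δ + δ / 2 = 1 / 4 - δ / 2 := by ring
  rw [e1, hQ, e2, hv i, if_pos rfl] at h5
  have h6 := hq1 q (le_max_left _ _)
  have h7 : c₁ * G⁻¹ * 1 * ((q : ℝ) * (r i : ℝ) ^ n) ^ (1 / 4 : ℝ) / (Real.log q ^ 3 * (1 + Real.log (r i)) ^ (n + 2)) =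
      c * (q : ℝ) ^ (1 / 4 : ℝ) / Real.log q ^ 3 := by
    rw [hc, Real.mul_rpow hq0.le hrn.le]
    have hl : 0 < Real.log q := Real.log_pos (by
      have : 1 < q := by omega
      exact_mod_cast this)
    field_simp
  rw [h7] at h5
  exact absurd h5 (not_le.2 h6)

/-- The main theorem. -/
theorem Fin_main (c₀ : ℝ) (hc₀ : 0 < c₀) : ∃ n₀ : ℕ, ∀ n : ℕ, n₀ ≤ n → ∃ K : ℝ, 0 < K ∧
    (∀ μs : Finset (Fin n → ℝ), ∃ c₁ q₀ : ℝ, 0 < c₁ ∧ ∀ Ξ : Set DC, GoodFam c₀ Ξ →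
      ∀ (μ : Ξ → Fin n → ℝ) (w : Ξ → ℂ), (∀ i, μ i ∈ μs) → (∀ i j, 0 ≤ μ i j) → (∀ i, ‖w i‖ = 1) →
      ∀ q : ℕ, q₀ ≤ q → ∀ A : Ξ → ℝ, (∀ i, 0 ≤ A i) → (∀ s : Finset Ξ, ∑ i ∈ s, A i ≤ 1) →
      ∃ (α : ℕ → Fin n → ℂ) (T : Ξ → LDatum n),
        Tws K (fun i : Ξ => i.1.1) (fun (i : Ξ) (m : ℕ) => i.1.2 (m : ZMod i.1.1)) μ w q α T ∧
        ∀ i, ‖(T i).L (1 / 2)‖ = c₁ * (∏ j, ‖Gammaℝ (1 / 2 + (μ i j : ℂ))‖)⁻¹ * A i *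
          ((q : ℝ) * (i.1.1 : ℝ) ^ n) ^ (1 / 4 : ℝ) / (Real.log q ^ 3 * (1 + Real.log i.1.1) ^ (n + 2))) ∧
    ∀ Ξ : Set DC, GoodFam c₀ Ξ → ∀ (μ : Ξ → Fin n → ℝ) (w : Ξ → ℂ), (Set.range μ).Finite → (∀ i j, 0 ≤ μ i j) →
      (∀ i, ‖w i‖ = 1) → ∀ i : Ξ, ¬ Subconvex {D : LDatum n | ∃ (q : ℕ) (α : ℕ → Fin n → ℂ) (T : Ξ → LDatum n),
        Tws K (fun i : Ξ => i.1.1) (fun (i : Ξ) (m : ℕ) => i.1.2 (m : ZMod i.1.1)) μ w q α T ∧ D = T i} := by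
  obtain ⟨k, hk3, hk⟩ := tw_FAM c₀ hc₀
  obtain ⟨om, c, C, N₀, hF⟩ := hk k le_rfl
  refine ⟨100000 * k, fun n hn => ?_⟩
  obtain ⟨K, hK, hG⟩ := FIN_gen tw_EXF tw_SAT Pool.Agent.ZT.zt_ZCI Pool.Agent.ZT.zt_DNB
    (Pool.Agent.BA.KER Pool.Agent.BA.a_KB Pool.Agent.BA.a_KC Pool.Agent.BA.a_KD) n (by omega)
  have hmain : ∀ μs : Finset (Fin n → ℝ), ∃ c₁ q₀ : ℝ, 0 < c₁ ∧ ∀ Ξ : Set DC, GoodFam c₀ Ξ →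
      ∀ (μ : Ξ → Fin n → ℝ) (w : Ξ → ℂ), (∀ i, μ i ∈ μs) → (∀ i j, 0 ≤ μ i j) → (∀ i, ‖w i‖ = 1) →
      ∀ q : ℕ, q₀ ≤ q → ∀ A : Ξ → ℝ, (∀ i, 0 ≤ A i) → (∀ s : Finset Ξ, ∑ i ∈ s, A i ≤ 1) →
      ∃ (α : ℕ → Fin n → ℂ) (T : Ξ → LDatum n),
        Tws K (fun i : Ξ => i.1.1) (fun (i : Ξ) (m : ℕ) => i.1.2 (m : ZMod i.1.1)) μ w q α T ∧
        ∀ i, ‖(T i).L (1 / 2)‖ = c₁ * (∏ j, ‖Gammaℝ (1 / 2 + (μ i j : ℂ))‖)⁻¹ * A i *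
          ((q : ℝ) * (i.1.1 : ℝ) ^ n) ^ (1 / 4 : ℝ) / (Real.log q ^ 3 * (1 + Real.log i.1.1) ^ (n + 2)) := by
    intro μs
    obtain ⟨c₁, q₀, hc₁, h⟩ := hG k N₀ c C om μs hk3 hn
    refine ⟨c₁, q₀, hc₁, fun Ξ hΞ μ w h1 h2 h3 q hq A hA hA1 => ?_⟩
    exact h Ξ _ _ μ w (hF Ξ hΞ) h1 h2 h3 q hq A hA hA1
  refine ⟨K, hK, hmain, ?_⟩
  intro Ξ hΞ μ w hfin hμ hw i
  obtain ⟨c₁, q₀, hc₁, h⟩ := hmain hfin.toFinset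
  refine Fin_notSub K _ _ μ w c₁ q₀ hc₁ (fun i => (hF Ξ hΞ).r1 i) hμ (fun q hq A hA hA1 => ?_) i
  exact h Ξ hΞ μ w (fun i => hfin.mem_toFinset.mpr ⟨i, rfl⟩) hμ hw q hq A hA hA1

end Pool.Agent.TW
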